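import Pool.Agent.Work.MP_3574a2_pr.Gen.Main
import Pool.Agent.Work.MP_3574a2_pr.Gen.MomentLaw
import Pool.Agent.Work.MP_3574a2_pr.Gen.P_Taylor
import Pool.Agent.Work.MP_3574a2_pr.Gen.P_Swap
import Pool.Agent.Work.MP_3574a2_pr.Gen.P_Transfer
import Pool.Agent.Work.MP_3574a2_pr.Gen.P_GLaw
import Pool.Agent.Work.MP_3574a2_pr.Gen.P_Net
import Pool.Agent.Work.MP_3574a2_pr.Gen.P_Coef
import Pool.Agent.Work.MP_3574a2_pr.Gen.P_Joint
import Pool.Agent.Work.MP_3574a2_pr.Gen.P_LoDet
import Pool.Agent.Work.MP_3574a2_pr.Gen.P_UpDet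
import Pool.Agent.Work.MP_3574a2_pr.Gen.P_GaussLo
import Pool.Agent.Work.MP_3574a2_pr.Gen.P_GaussUp
import Pool.Agent.Work.MP_3574a2_pr.Gen.P_LoGen
import Pool.Agent.Work.MP_3574a2_pr.Gen.P_UpGen
import Pool.Agent.Work.MP_3574a2_pr.Gen.P_Err
import Pool.Agent.Work.MP_3574a2_pr.Dil.Spp
import Pool.Agent.Work.MP_3574a2_pr.Dil.Conc
import Pool.Agent.Work.MP_3574a2_pr.Dil.Low
import Pool.Agent.Work.MP_3574a2_pr.Dil.Maurey
import Pool.Agent.Work.MP_3574a2_pr.Dil.Tail
import Pool.Agent.Work.MP_3574a2_pr.Dil.Up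
import Pool.Agent.Work.MP_3574a2_pr.Dil.Two
import Pool.Agent.Work.MP_3574a2_pr.Dil.Slope
import Pool.Agent.Work.MP_3574a2_pr.Dil.Reg
import Pool.Agent.Work.MP_3574a2_pr.Dil.Pars
import Pool.Agent.Work.MP_3574a2_pr.Dil.Win
import Pool.Agent.Work.MP_3574a2_pr.Dil.Pigeon
import Pool.Agent.Work.MP_3574a2_pr.Dil.Upper
import Pool.Agent.Work.MP_3574a2_pr.Dil.Lower
import Pool.Agent.Work.MP_3574a2_pr.Dil.Comp
import Pool.Agent.Work.MP_3574a2_pr.Dil.Ne
import Pool.Agent.Work.MP_3574a2_pr.Dil.Quad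
import Pool.Agent.Work.MP_3574a2_pr.Dil.Lam
import Pool.Agent.Work.MP_3574a2_pr.Dil.Gauss
import Pool.Agent.Work.MP_3574a2_pr.Dil.Blocks
import Pool.Agent.Work.MP_3574a2_pr.Dil.Cross

/-!
# MP_3574a2_pr, Q1 and Q2: Gumbel limit for the top eigenvalue of the random Toeplitz matrix

For independent, identically distributed `X 0, X 1, …` with mean `0`, variance `1` and a finite
absolute moment of some order `q > 2`, the largest eigenvalue of the `n × n` symmetric Toeplitz
matrix with entries `X |i - j|`, shifted and normalised by deterministic sequences that do not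
depend on the law, converges in distribution to the standard Gumbel law.
-/

set_option autoImplicit false

universe u

namespace Pool.Agent.Results.MP_3574a2_pr.GumbelGeneral

open MeasureTheory ProbabilityTheory Filter Topology
open Pool.Agent.Work.MP_3574a2_pr.Dil Pool.Agent.Work.MP_3574a2_pr.Gen

/-- The symmetric `n × n` Toeplitz matrix with entries `x |i - j|`. -/
def toeplitz (n : ℕ) (x : ℕ → ℝ) : Matrix (Fin n) (Fin n) ℝ :=
  Matrix.of fun i j => x ((i : ℤ) - (j : ℤ)).natAbs

/-- The largest eigenvalue of a real matrix, as the supremum of its real spectrum. -/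
noncomputable def topEigenvalue {n : ℕ} (M : Matrix (Fin n) (Fin n) ℝ) : ℝ :=
  sSup (spectrum ℝ M)

lemma topEigenvalue_eq (n : ℕ) (x : ℕ → ℝ) : topEigenvalue (toeplitz n x) = lam1 n x := by
  unfold topEigenvalue lam1
  have h : toeplitz n x = toep n x := rfl
  rw [h, (toep_herm n x).spectrum_real_eq_range_eigenvalues]
  rfl

/-- The main statement, from all the steps. -/
theorem stMain : StMain.{u} := by
  have hPars := claimPars
  have hSym := claimSym
  have hSpp := claimSpp
  have hMax0 := claimMax.{0}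
  have hWin := claimWin hPars
  have hUp := claimUp hSpp claimMaurey claimChi claimTail
  have hLow := claimLow hSpp
  have hTwo := claimTwo hSpp hLow hUp
  have hReg := claimReg (claimConc hSpp) hLow hTwo claimSlope
  have hPi := claimPigeon hPars hSym
  have hBl := claimBlocks.{0} hSpp
  have hTr := pr_Transfer pr_Taylor pr_Swap
  have hLoDet := pr_LoDet claimNoise claimQuad claimLam (claimUpper hSpp hPi)
  have hUpDet := pr_UpDet claimNoise claimQuad claimLam (claimLower hSpp)
  have hGLo := pr_GaussLo pr_Coef pr_Joint claimGauss hBl hMax0 hSpp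
  have hGUp := pr_GaussUp pr_Coef pr_Joint claimGauss hBl hMax0 hSpp
  exact main_of_gen (pr_LoGen hTr pr_Net pr_Coef pr_Joint pr_GLaw hLoDet hGLo hSpp)
    (pr_UpGen hTr pr_Net pr_Coef pr_Joint pr_GLaw hUpDet hGUp hSpp) pr_Err hMax0 hSpp hWin
    (claimComp hPars hSpp) (claimNe hWin hPars hSym hSpp)
    (claimCross (claimSub hSpp) hBl hMax0) hReg

/-- There are deterministic sequences `a` and `b > 0` such that for every sequence of independent
identically distributed real variables, on any probability space, with mean `0`, variance `1` and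
`E |X 0| ^ q < ∞` for some `q > 2`, the distribution functions of `(λ₁(T_n) - a n) / b n` converge
pointwise to `exp (- exp (- x))`. -/
theorem result : ∃ a b : ℕ → ℝ, (∀ n, 0 < b n) ∧
    ∀ (Ω : Type u) [MeasurableSpace Ω] (P : Measure Ω) [IsProbabilityMeasure P]
      (X : ℕ → Ω → ℝ), (∀ k, Measurable (X k)) → iIndepFun X P →
      (∀ k, IdentDistrib (X k) (X 0) P P) → ∫ ω, X 0 ω ∂P = 0 → ∫ ω, X 0 ω ^ 2 ∂P = 1 →
      (∃ q : ℝ, 2 < q ∧ Integrable (fun ω => |X 0 ω| ^ q) P) → ∀ x : ℝ,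
      Tendsto (fun n : ℕ => P.real {ω | (topEigenvalue (toeplitz n fun k => X k ω) - a n) / b n ≤ x})
        atTop (𝓝 (Real.exp (-Real.exp (-x)))) := by
  obtain ⟨a, b, hb, h⟩ := stMain.{u}
  refine ⟨a, b, hb, ?_⟩
  intro Ω mΩ P hP X hm hi hid h0 h1 ⟨q, hq, hint⟩ x
  have hlaw := law_of_moments P (X 0) (hm 0) h0 h1 q hq hint
  have := h Ω mΩ P X (P.map (X 0)) (min q 3) hP hm hi (fun k => (hid k).map_eq)
    (lt_min hq (by norm_num)) (min_le_right _ _) hlaw x
  simpa only [topEigenvalue_eq] using this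

end Pool.Agent.Results.MP_3574a2_pr.GumbelGeneral
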